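import Pool.Agent.ISO.StmtsM

/-!
# Squad ISO (MP_b48657_ag), row MVU: the fibre and open subschemes
-/

set_option autoImplicit false
set_option linter.unusedVariables false

namespace Pool.Agent.ISO.H89

open MvPolynomial Pool.Agent.Helper6_Mono

theorem pt_ext' {k : Type} [Field k] {σ : Type} {f : MvPolynomial σ k} {V : GSch f} {S : Type}
    [CommRing S] [Algebra k S] {x y : V.Pt S} (h : x.crd = y.crd) : x = y := by
  cases x
  cases y
  cases h
  rfl

theorem mvu : MvuStmt := by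
  intro k _ σ f f1 p hp V h c hh
  have hE : ∀ e : MvPolynomial (Option V.Idx) k, e ∈ (mv f p hp (V.unit h c hh)).eqs ↔
      e ∈ ((mv f p hp V).unit h c hh).eqs := by
    intro e
    show ((e = V.optX * V.opt h - 1 ∨ ∃ e' ∈ V.eqs, e = V.opt e') ∨ ∃ i, e = V.opt (V.pt i)) ↔
      (e = V.optX * V.opt h - 1 ∨ ∃ e', (e' ∈ V.eqs ∨ ∃ i, e' = V.pt i) ∧ e = V.opt e')
    constructor
    · rintro ((h1 | ⟨e', h1, h2⟩) | ⟨i, h1⟩)
      · exact Or.inl h1
      · exact Or.inr ⟨e', Or.inl h1, h2⟩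
      · exact Or.inr ⟨V.pt i, Or.inr ⟨i, rfl⟩, h1⟩
    · rintro (h1 | ⟨e', (h1 | ⟨i, rfl⟩), h2⟩)
      · exact Or.inl (Or.inl h1)
      · exact Or.inl (Or.inr ⟨e', h1, h2⟩)
      · exact Or.inr ⟨i, h2⟩
  let F : GSch.Bij (mv f p hp (V.unit h c hh)) ((mv f p hp V).unit h c hh) :=
    { map := fun S _ _ x => ⟨x.crd, fun e he => x.eq e ((hE e).2 he)⟩
      bij := fun S _ _ => by
        constructor
        · intro x y hxy
          apply pt_ext'
          exact congrArg (fun z : GSch.Pt ((mv f p hp V).unit h c hh) S => z.crd) hxy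
        · intro y
          exact ⟨⟨y.crd, fun e he => y.eq e ((hE e).1 he)⟩, rfl⟩ }
  refine ⟨F, ?_, ?_, ?_⟩
  · intro S S' _ _ _ _ φ x x' hx
    exact hx
  · intro S _ _ c' x x' hx
    exact hx
  · intro S _ _ x i
    show aeval x.crd (rename some (C (p i) : MvPolynomial V.Idx k))
      = aeval x.crd (C (p i) : MvPolynomial (Option V.Idx) k)
    rw [rename_C]

end Pool.Agent.ISO.H89
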